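import Pool.Agent.Lib.MP_c5d73d_lc.F.IfaceW
import Pool.Agent.Lib.MP_c5d73d_lc.F.IfaceT
import Pool.Agent.Lib.MP_100a6c_lc.H61.CC
import Pool.Agent.Lib.MP_100a6c_lc.H68.Ord

/-!
# CHV: the continuum hypothesis fails in `V^B`
-/

universe u

open Cardinal Filter

open scoped symmDiff

namespace Pool.Agent.Lib.MP_c5d73d_lc.F.H84

open Pool.Agent.Lib.MP_100a6c_lc
open BName
open H36 (nn om)

theorem ext_isPow_right {B : Type u} [CompleteBooleanAlgebra B] (p : BName B) :
    Ext (fun x : BName B => isPow (VB B) p x) :=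
  Ext.iInf fun z => (Ext.const _).bihimp (ext_sub_right z)

/-- CHV. -/
theorem chv (hR : RealsStatement.{u}) (hN : NewStatement.{u}) : ChvStatement.{u} := by
  intro B _ κ hκ hC hT
  obtain ⟨r1, -, -, -, -, r6, r7⟩ := hR B
  have hω : (Kap ℵ₀ : ZFSet.{u}) = om := by rw [Kap, Cardinal.ord_aleph0]; rfl
  have hsucc : (VB B).isSucc (check (Mu ℵ₀)) (check om) = ⊤ := by
    rw [← hω]
    exact H61.isSucc_check le_rfl hC
  have hsucc2 : (VB B).leCard (check (Mu ℵ₀)) (check om) = ⊥ := by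
    have h1 : (⊤ : B) ≤ ((VB B).leCard (check (Mu ℵ₀)) (check om))ᶜ := by
      rw [← hsucc]
      exact inf_le_left.trans inf_le_right
    exact compl_eq_top.1 (top_le_iff.1 h1)
  rw [eq_bot_iff]
  unfold CH
  refine iSup_le fun w => iSup_le fun m => iSup_le fun c => ?_
  set Γ : B := isOm (VB B) w ⊓ (VB B).isSucc m w ⊓ isPow (VB B) c w ⊓ (VB B).leCard c m with hΓ
  have e1 : Γ ≤ beq w (check om) := by
    rw [← r6]
    exact inf_le_left.trans (inf_le_left.trans inf_le_left)
  have e2 : Γ ≤ (VB B).isSucc m (check om) :=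
    (ext_isSucc_right m).of_le e1 (inf_le_left.trans (inf_le_left.trans inf_le_right))
  have e3 : Γ ≤ beq c Pw := by
    rw [← r7]
    exact (ext_isPow_right c).of_le e1 (inf_le_left.trans inf_le_right)
  have e4 : Γ ≤ (VB B).leCard Pw m := (ext_leCard_left m).of_le e3 inf_le_right
  have e5 : Γ ≤ ⨆ α : Ordinal.{u}, beq m (H68.co α) :=
    (e2.trans (inf_le_left.trans inf_le_left)).trans (H68.ord1 m)
  refine (le_inf le_rfl e5).trans ?_
  rw [inf_iSup_eq]
  refine iSup_le fun α => ?_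
  set Δ : B := Γ ⊓ beq m (H68.co α) with hΔ
  have d1 : Δ ≤ (VB B).isSucc (H68.co α) (check om) :=
    (ext_isSucc_left (check om)).of_le inf_le_right (inf_le_left.trans e2)
  have d2 : Δ ≤ (VB B).leCard Pw (H68.co α) :=
    (ext_leCard_right Pw).of_le inf_le_right (inf_le_left.trans e4)
  rcases lt_or_ge ((Order.succ ℵ₀ : Cardinal.{u}).ord) α with hα | hα
  · -- `ω₁ < α` is impossible
    have h1 : Δ ≤ (VB B).leCard (check (Mu ℵ₀)) (check om) := by
      refine iInf_himp_apply (φ := fun ξ => (VB B).mem ξ (H68.co α))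
        (ψ := fun ξ => (VB B).leCard ξ (check om)) (d1.trans inf_le_right) (check (Mu ℵ₀)) le_rfl ?_
      change Δ ≤ bmem (check (Mu ℵ₀)) (H68.co α)
      have h2 : bmem (check (Mu ℵ₀) : BName B) (H68.co α) = ⊤ := H68.mem_co_co hα
      rw [h2]
      exact le_top
    rw [hsucc2] at h1
    exact h1
  · obtain ⟨t, ht⟩ := exists_enum_of_le_leCard α d2
    have hcard : #α.ToType < κ := by
      rw [Cardinal.mk_toType]
      refine lt_of_le_of_lt ?_ hκ
      have := Ordinal.card_le_card hα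
      rwa [Cardinal.card_ord] at this
    obtain ⟨a, ha⟩ := hN B κ (((Order.lt_succ ℵ₀).trans hκ)) hC hT α.ToType
      (fun y n => bmem (check (nn n)) (t y)) hcard
    have h1 : Δ ≤ ⨆ y, beq (rn a) (t y) := by
      have h2 := ht (rn a)
      have h3 : bmem (rn a) (Pw : BName B) = ⊤ := by
        rw [eq_top_iff]
        exact vl_le_bmem (Pw : BName B) a
      rw [h3, inf_top_eq] at h2
      exact h2
    refine h1.trans (iSup_le fun y => ?_)
    rw [← ha y]
    refine le_iInf fun n => ?_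
    rw [beq_eq_iInf]
    refine (iInf_le _ (check (nn n))).trans ?_
    rw [r1]

end Pool.Agent.Lib.MP_c5d73d_lc.F.H84
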